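import Pool.Agent.R187.GA.Main

/-!
# The pole of `L₂` at `s = 2` and Gamma averages of the Frobenius traces

`X` is a connected smooth projective variety over a number field `k`, `L₂(s) = L₂(s, X)` and `t_v` is
the trace of the Frobenius on the invariants of the inertia group `I_v` on `H²`.  Fix any real `x > 0` and
put
`T_n = x^n / (n-1)! · ∑_v t_v (log q_v)^n q_v^{-(2+x)}`,
an average of the numbers `t_v / q_v` over the primes of `k` with Gamma distribution weights: `log q_v` has
mean value about `n / x` and standard deviation about `√n / x`, and everything takes place at the single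
point `s = 2 + x` of the half-plane of absolute convergence.  The theorem says that Tate's conjecture holds
for `X` if and only if `T_n` tends to `rank NS(X/k)` exponentially fast.  The definitions of the `L`-function
and of the order of the pole are in `Pool.Agent.R385.PH.Defs`.
-/

set_option autoImplicit false

namespace Pool.Agent.Results.MP_1f4fc7_nt.GammaAverages

open NumberField IsDedekindDomain Filter Topology Polynomial Pool.Agent.R385.PH

/-- The trace of the Frobenius at `v`: `B_v(z) = det(1 - Frob z) = 1 - t_v z + …`. -/
noncomputable def frobTrace {k : Type} [Field k] [NumberField k]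
    (B : HeightOneSpectrum (𝓞 k) → ℂ[X]) (v : HeightOneSpectrum (𝓞 k)) : ℂ :=
  -(B v).coeff 1

/-- The Gamma average `x^n / (n-1)! · ∑_v t_v (log q_v)^n q_v^{-(2+x)}` over all primes `v` of `k`. -/
noncomputable def gammaAverage {k : Type} [Field k] [NumberField k]
    (B : HeightOneSpectrum (𝓞 k) → ℂ[X]) (x : ℝ) (n : ℕ) : ℂ :=
  (x : ℂ) ^ n / ((n - 1).factorial : ℂ) * ∑' v : HeightOneSpectrum (𝓞 k),
    frobTrace B v * (Real.log (Ideal.absNorm v.asIdeal) : ℂ) ^ n *
      (Ideal.absNorm v.asIdeal : ℂ) ^ (-(2 + x : ℂ))

/-- **Poles and Gamma averages.**  Let `B` be the denominators of the Euler factors of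
`L₂(s) = L₂(s, X)`, for a smooth projective variety `X` over a number field `k` with second Betti
number `N`.  For every real `x > 0` and every integer `r` the function `L₂(s)` extends meromorphically to a
neighbourhood of `s = 2` with a pole of order `r` at `s = 2` if and only if the averages `gammaAverage B x n`
tend to `r` exponentially fast as `n → ∞`. -/
theorem result (k : Type) [Field k] [NumberField k] (N : ℕ)
    (B : HeightOneSpectrum (𝓞 k) → ℂ[X]) (hB : IsEuler₂ N B) (x : ℝ) (hx : 0 < x) (r : ℤ) :
    HasPole B r ↔ ∃ C ρ : ℝ, 0 < ρ ∧ ρ < 1 ∧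
      ∀ n : ℕ, 1 ≤ n → ‖gammaAverage B x n - r‖ ≤ C * ρ ^ n :=
  Pool.Agent.R187.GA.main hB hx r

end Pool.Agent.Results.MP_1f4fc7_nt.GammaAverages
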