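import Pool.Agent.R385.PH.Main

/-!
# The order of the pole at `s = 2` is the jump of the argument of the Euler product

`X` is a connected smooth projective variety over a number field `k`, and `L₂(s) = L₂(s, X)`.  The sum of
the arguments of the Euler factors converges almost everywhere on the edge line `Re s = 2` of the
half-plane of absolute convergence.  The theorem says that `L₂(s)` has a pole of order `r` at `s = 2` if
and only if this real function is real analytic near `s = 2` apart from a jump of size `-π r`.
The definitions are in `Pool.Agent.R385.PH.Defs`.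
-/

set_option autoImplicit false

namespace Pool.Agent.Results.MP_1f4fc7_nt.PhaseJump

open NumberField IsDedekindDomain Filter Topology MeasureTheory Polynomial Pool.Agent.R385.PH

/-- **Poles and jumps of the argument.**  Let `B` be the denominators of the Euler factors of
`L₂(s) = L₂(s, X)`, for a smooth projective variety `X` over a number field `k` with second Betti
number `N`.  For all large `P`:

* For almost all real `τ` the sum of `arg L_v(2 + iτ)` over the primes `v` with `P ≤ q_v < x` converges
  to a number `φ(τ) = phase B P τ` as `x → ∞`.
* For every integer `r`, the function `L₂(s)` has a pole of order `r` at `s = 2` if and only if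
  there is a function `H` which is holomorphic at `0` with `φ(τ) + r (π/2) sgn(τ) = H(τ)` for almost
  all real `τ` near `0`.

In particular Tate's conjecture for `X` over `k` holds if and only if near `τ = 0` the function `φ` is
real analytic except for a jump of size `-π rank NS(X/k)` at `0`. -/
theorem result (k : Type) [Field k] [NumberField k] (N : ℕ)
    (B : HeightOneSpectrum (𝓞 k) → ℂ[X]) (hB : IsEuler₂ N B) :
    ∃ P₀ : ℕ, ∀ P : ℕ, P₀ ≤ P →
      (∀ᵐ τ : ℝ, Tendsto (fun x : ℕ => argSum B P x τ) atTop (𝓝 (phase B P τ))) ∧
      ∀ r : ℤ, HasPole B r ↔ ∃ H : ℂ → ℂ, AnalyticAt ℂ H 0 ∧ ∃ δ : ℝ, 0 < δ ∧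
        ∀ᵐ τ : ℝ, |τ| < δ →
          ((phase B P τ + r * (Real.pi / 2) * Real.sign τ : ℝ) : ℂ) = H τ :=
  main hB

end Pool.Agent.Results.MP_1f4fc7_nt.PhaseJump
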