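import Pool.Agent.R385.TL.Ord2
import Pool.Agent.R409.EV.Temp

/-!
# The pole of `L₂(s, X)` at `s = 2` and the large values on the line `Re s = 2`

Let `X` be a smooth projective variety over a number field `K`.  The line `Re s = 2` is the edge of the
half-plane of absolute convergence of `L₂(s, X)`, and `L₂(s, X)` has boundary values at almost all of its
points.  The size of `L₂` near `s = 2`, in particular the order of its pole there, is determined by the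
frequency of the large values of its modulus on this line, in intervals of any position.
-/

set_option autoImplicit false

namespace Pool.Agent.Results.MP_1f4fc7_nt.TailCriterion

open NumberField IsDedekindDomain MeasureTheory Filter Topology
open Pool.Agent.TH958.BV Pool.Agent.R409.EV

variable {K : Type} [Field K] [NumberField K]

/-- `ℓ` is the modulus of `L₂` on the line `Re s = 2`: for almost all real `t`, `|L₂(2 + it + ε)|`
tends to `ℓ(t)` as `ε → 0+`. -/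
def IsModulus {N : ℕ} (α : HeightOneSpectrum (𝓞 K) → Fin N → ℂ) (l : ℝ → ℝ) : Prop :=
  ∀ᵐ t : ℝ, Tendsto (fun ε : ℝ => ‖LProd α (edgePoint 2 t + (ε : ℂ))‖) (𝓝[>] 0) (𝓝 (l t))

/-- `Λ(t) = |ζ(1 + it)|^{2M} ℓ(t₀ + t) ℓ(t₀ - t)`. -/
noncomputable def weight (M t₀ : ℝ) (l : ℝ → ℝ) (t : ℝ) : ℝ :=
  ‖riemannZeta (1 + t * Complex.I)‖ ^ (2 * M) * l (t₀ + t) * l (t₀ - t)

/-- For some `c > 0` and all large `y`, the set where `Λ ≥ y` has, in every interval of length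
`T ≥ T₀(y)`, a proportion at most `exp (-exp (c y^{1/κ}))`. -/
def AtMost (κ : ℝ) (Λ : ℝ → ℝ) : Prop :=
  ∃ c : ℝ, 0 < c ∧ ∃ y₀ : ℝ, 0 < y₀ ∧ ∀ y : ℝ, y₀ ≤ y → ∃ T₀ : ℝ, ∀ a T : ℝ, T₀ ≤ T →
    volume {t ∈ Set.Icc a (a + T) | y ≤ Λ t} ≤
      ENNReal.ofReal (Real.exp (-Real.exp (c * y ^ (1 / κ))) * T)

/-- For some `c > 0` and all large `y`, the set where `Λ ≥ y` has, in every interval of length
`T ≥ T₀(y)`, a proportion at least `exp (-exp (c y^{1/κ}))`. -/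
def AtLeast (κ : ℝ) (Λ : ℝ → ℝ) : Prop :=
  ∃ c : ℝ, 0 < c ∧ ∃ y₀ : ℝ, 0 < y₀ ∧ ∀ y : ℝ, y₀ ≤ y → ∃ T₀ : ℝ, ∀ a T : ℝ, T₀ ≤ T →
    ENNReal.ofReal (Real.exp (-Real.exp (c * y ^ (1 / κ))) * T) ≤
      volume {t ∈ Set.Icc a (a + T) | y ≤ Λ t}

/-- `|L₂(2 + it₀ + ε)| ≤ C ε^{-r}` for some `C` and all small `ε > 0`. -/
def UpperBound {N : ℕ} (α : HeightOneSpectrum (𝓞 K) → Fin N → ℂ) (t₀ r : ℝ) : Prop :=
  ∃ C : ℝ, ∀ᶠ ε : ℝ in 𝓝[>] 0, ‖LProd α (edgePoint 2 t₀ + (ε : ℂ))‖ ≤ C * ε ^ (-r)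

/-- `|L₂(2 + it₀ + ε)| ≥ c ε^{-r}` for some `c > 0` and all small `ε > 0`. -/
def LowerBound {N : ℕ} (α : HeightOneSpectrum (𝓞 K) → Fin N → ℂ) (t₀ r : ℝ) : Prop :=
  ∃ c : ℝ, 0 < c ∧ ∀ᶠ ε : ℝ in 𝓝[>] 0, c * ε ^ (-r) ≤ ‖LProd α (edgePoint 2 t₀ + (ε : ℂ))‖

/-- `F` is a meromorphic continuation of `L₂` to a neighbourhood of the point `2 + it₀`. -/
def Continues {N : ℕ} (α : HeightOneSpectrum (𝓞 K) → Fin N → ℂ) (t₀ : ℝ) (F : ℂ → ℂ) : Prop :=
  MeromorphicAt F (edgePoint 2 t₀) ∧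
    ∀ᶠ s in 𝓝 (edgePoint 2 t₀), 2 < s.re → F s = LProd α s

/-- **The pole at `s = 2` and the large values on the line `Re s = 2`.**  Let `X` be a smooth
projective variety over a number field `K`, let `N` be its second Betti number and `α_{v,j}` the
parameters of `L₂(s, X)`, the Frobenius eigenvalues on `H²` at almost all `v`, and put `M = [K : ℚ] N`.
The modulus `ℓ` of `L₂` on the line `Re s = 2` exists.  For all real `t₀` and all real `r > -M` the
bounds of `L₂(2 + it₀ + ε)` by `ε^{-r}` from above and below are equivalent to those for the frequency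
of the large values of `|ζ(1 + it)|^{2M} ℓ(t₀ + t) ℓ(t₀ - t)`, with the exponent `κ = 2(M + r)`.  If `L₂`
continues to a neighbourhood of `2 + it₀`, it has a pole of order `k` there if and only if both bounds
for the frequency hold with `κ = 2(M + k)`. -/
theorem result (K : Type) [Field K] [NumberField K] (n : ℕ)
    (X : Set (MvPolynomial (Fin n) (𝓞 K))) (d N : ℕ)
    (α : HeightOneSpectrum (𝓞 K) → Fin N → ℂ) (_ : IsParameter X d 2 α) :
    (∃ l, IsModulus α l) ∧ ∀ M : ℝ, M = Module.finrank ℚ K * N → ∀ l, IsModulus α l → ∀ t₀ : ℝ,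
      (∀ r : ℝ, -M < r →
        (UpperBound α t₀ r ↔ AtMost (2 * (M + r)) (weight M t₀ l)) ∧
        (LowerBound α t₀ r ↔ AtLeast (2 * (M + r)) (weight M t₀ l))) ∧
      ∀ F : ℂ → ℂ, Continues α t₀ F → ∀ k : ℤ, -M < k →
        (meromorphicOrderAt F (edgePoint 2 t₀) = ((-k : ℤ) : WithTop ℤ) ↔
          AtMost (2 * (M + k)) (weight M t₀ l) ∧ AtLeast (2 * (M + k)) (weight M t₀ l)) := by
  rename_i hα
  have hb := bT_bound (i := 2) hα.2
  have hre : ∀ (t : ℝ) {ε : ℝ}, 0 < ε → ((2 : ℕ) : ℝ) / 2 + 1 < (edgePoint 2 t + (ε : ℂ)).re := by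
    intro t ε hε
    unfold Pool.Agent.TH958.BV.edgePoint
    simp [hε]
  have hexp : ∀ t : ℝ, Pool.Agent.R385.TL.IsExp (bT 2 α) t (LProd α) (edgePoint 2 t) := by
    intro t ε hε
    rw [LProd_exp hα.2 (hre t hε), logL_at hα.2 hε]
  have hmod : ∀ l : ℝ → ℝ, IsModulus α l ↔ Pool.Agent.R385.TL.IsMod (bT 2 α) l := by
    intro l
    unfold IsModulus Pool.Agent.R385.TL.IsMod
    refine Filter.eventually_congr (Eventually.of_forall fun t => ?_)
    refine tendsto_congr' ?_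
    filter_upwards [self_mem_nhdsWithin] with ε hε
    exact Pool.Agent.R385.TL.norm_isExp (hexp t) hε
  refine ⟨⟨_, (hmod _).2 (Pool.Agent.R385.TL.isMod_exists hb)⟩, ?_⟩
  rintro M rfl l hl t₀
  have hl' := (hmod l).1 hl
  refine ⟨fun r hr => Pool.Agent.R385.TL.rad_iff hb hl' (hexp t₀) (by linarith), ?_⟩
  intro F hF k hk
  refine Pool.Agent.R385.TL.mero_iff hb hl' (hexp t₀) hF.1 ?_ (by linarith)
  have h1 : Tendsto (fun ε : ℝ => edgePoint 2 t₀ + (ε : ℂ)) (𝓝[>] 0) (𝓝 (edgePoint 2 t₀)) := by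
    have h3 : Tendsto (fun ε : ℝ => edgePoint 2 t₀ + (ε : ℂ)) (𝓝 0)
        (𝓝 (edgePoint 2 t₀ + ((0 : ℝ) : ℂ))) :=
      (continuous_const.add Complex.continuous_ofReal).tendsto _
    rw [Complex.ofReal_zero, add_zero] at h3
    exact h3.mono_left nhdsWithin_le_nhds
  filter_upwards [h1.eventually hF.2, self_mem_nhdsWithin] with ε h2 hε
  refine h2 ?_
  have h4 := hre t₀ (show (0 : ℝ) < ε from hε)
  norm_num at h4 ⊢
  exact h4

end Pool.Agent.Results.MP_1f4fc7_nt.TailCriterion
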